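import Pool.Agent.Q248.RL.Stm2

set_option autoImplicit false

/-!
# Exponents of the solutions of the differential equation (job ODE2)
-/

open Filter Topology UpperHalfPlane Complex
open scoped Manifold MatrixGroups ModularForm

namespace Pool.Agent.Q98.RL.Od

open Pool.Agent.Y813.RL Pool.Agent.Q248.RL

noncomputable section

/-- the filter at `i∞` -/
abbrev II : Filter ℂ := comap Complex.im atTop

theorem qp (τ : ℂ) : Function.Periodic.qParam 1 τ = ee τ := by
  simp [Function.Periodic.qParam, ee]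

theorem ee_add (x y : ℂ) : ee (x + y) = ee x * ee y := by
  unfold ee
  rw [mul_add, Complex.exp_add]

theorem ee_ne_zero (x : ℂ) : ee x ≠ 0 := Complex.exp_ne_zero _

theorem norm_ee (x : ℂ) : ‖ee x‖ = Real.exp (-(2 * Real.pi * x.im)) := by
  unfold ee
  rw [Complex.norm_exp]
  congr 1
  simp

theorem tendsto_ee : Tendsto ee II (𝓝 0) := by
  have := (Function.Periodic.qParam_tendsto (h := 1) one_pos).mono_right nhdsWithin_le_nhds
  refine this.congr fun τ => ?_
  simpa using qp τ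

theorem ev_im (Y : ℝ) : ∀ᶠ τ : ℂ in II, Y < τ.im :=
  tendsto_comap.eventually (eventually_gt_atTop Y)

theorem ev_iff {p : ℂ → Prop} : (∀ᶠ τ in II, p τ) ↔ ∃ Y : ℝ, ∀ τ : ℂ, Y < τ.im → p τ := by
  constructor
  · intro h
    rw [eventually_comap] at h
    obtain ⟨Y, hY⟩ := eventually_atTop.1 h
    exact ⟨Y, fun τ hτ => hY τ.im hτ.le τ rfl⟩
  · rintro ⟨Y, hY⟩
    filter_upwards [ev_im Y] with τ hτ using hY τ hτ

/-- `f τ = q^e h(q)` near `i∞` with `h` holomorphic at `0`, `h 0 = a` -/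
def Ex (e : ℝ) (f : ℂ → ℂ) (a : ℂ) : Prop :=
  ∃ h : ℂ → ℂ, AnalyticAt ℂ h 0 ∧ h 0 = a ∧ ∀ᶠ τ in II, f τ = ee (e * τ) * h (ee τ)

theorem Ex.mul {e e' : ℝ} {f g : ℂ → ℂ} {a b : ℂ} (hf : Ex e f a) (hg : Ex e' g b) :
    Ex (e + e') (fun τ => f τ * g τ) (a * b) := by
  obtain ⟨h, h1, h2, h3⟩ := hf
  obtain ⟨k, k1, k2, k3⟩ := hg
  refine ⟨fun q => h q * k q, h1.mul k1, by simp only [h2, k2], ?_⟩
  filter_upwards [h3, k3] with τ a1 a2
  rw [a1, a2]
  have : ee (((e + e' : ℝ) : ℂ) * τ) = ee (e * τ) * ee (e' * τ) := by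
    rw [← ee_add]
    congr 1
    push_cast
    ring
  rw [this]
  ring

theorem Ex.add {e : ℝ} {f g : ℂ → ℂ} {a b : ℂ} (hf : Ex e f a) (hg : Ex e g b) :
    Ex e (fun τ => f τ + g τ) (a + b) := by
  obtain ⟨h, h1, h2, h3⟩ := hf
  obtain ⟨k, k1, k2, k3⟩ := hg
  refine ⟨fun q => h q + k q, h1.add k1, by simp only [h2, k2], ?_⟩
  filter_upwards [h3, k3] with τ a1 a2
  rw [a1, a2]
  ring

theorem Ex.const_mul {e : ℝ} {f : ℂ → ℂ} {a : ℂ} (c : ℂ) (hf : Ex e f a) :
    Ex e (fun τ => c * f τ) (c * a) := by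
  obtain ⟨h, h1, h2, h3⟩ := hf
  refine ⟨fun q => c * h q, analyticAt_const.mul h1, by simp only [h2], ?_⟩
  filter_upwards [h3] with τ a1
  rw [a1]
  ring

theorem Ex.congr {e : ℝ} {f g : ℂ → ℂ} {a : ℂ} (hf : Ex e f a) (hfg : ∀ᶠ τ in II, g τ = f τ) :
    Ex e g a := by
  obtain ⟨h, h1, h2, h3⟩ := hf
  refine ⟨h, h1, h2, ?_⟩
  filter_upwards [h3, hfg] with τ a1 a2
  rw [a2, a1]

theorem Ex.D {e : ℝ} {f : ℂ → ℂ} {a : ℂ} (hf : Ex e f a) :
    Ex e (fun τ => (2 * Real.pi * Complex.I)⁻¹ * deriv f τ) (e * a) := by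
  obtain ⟨h, h1, h2, h3⟩ := hf
  refine ⟨fun q => e * h q + q * deriv h q, ?_, by simp [h2], ?_⟩
  · exact (analyticAt_const.mul h1).add (analyticAt_id.mul h1.deriv)
  · obtain ⟨Y, hY⟩ := ev_iff.1 h3
    have h4 : ∀ᶠ q in 𝓝 (0 : ℂ), AnalyticAt ℂ h q := h1.eventually_analyticAt
    filter_upwards [ev_im Y, tendsto_ee.eventually h4] with τ hτ hq
    have hopen : IsOpen {τ : ℂ | Y < τ.im} := isOpen_lt continuous_const Complex.continuous_im
    have e1 : f =ᶠ[𝓝 τ] fun τ => ee (e * τ) * h (ee τ) := by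
      filter_upwards [hopen.mem_nhds hτ] with w hw using hY w hw
    have e2 : HasDerivAt (fun τ : ℂ => ee (e * τ))
        (ee (e * τ) * (2 * Real.pi * Complex.I * e)) τ := by
      unfold ee
      have := ((((hasDerivAt_id τ).const_mul (e : ℂ)).const_mul (2 * Real.pi * Complex.I))).cexp
      simpa [mul_assoc] using this
    have e3 : HasDerivAt ee (ee τ * (2 * Real.pi * Complex.I)) τ := by
      unfold ee
      have := (((hasDerivAt_id τ).const_mul (2 * Real.pi * Complex.I))).cexp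
      simpa using this
    have e4 : HasDerivAt (fun τ => h (ee τ)) (deriv h (ee τ) * (ee τ * (2 * Real.pi * Complex.I)))
        τ := hq.differentiableAt.hasDerivAt.comp τ e3
    have e5 : deriv (fun τ => ee (e * τ) * h (ee τ)) τ = _ := (e2.mul e4).deriv
    rw [e1.deriv_eq, e5]
    have hpi : (Real.pi : ℂ) ≠ 0 := by exact_mod_cast Real.pi_ne_zero
    have := Complex.I_ne_zero
    field_simp

theorem Ex.tendsto {e : ℝ} {f : ℂ → ℂ} {a : ℂ} (hf : Ex e f a) :
    Tendsto (fun τ => ee (-(e * τ)) * f τ) II (𝓝 a) := by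
  obtain ⟨h, h1, h2, h3⟩ := hf
  have h4 : Tendsto (fun τ => h (ee τ)) II (𝓝 a) := by
    rw [← h2]
    exact h1.continuousAt.tendsto.comp tendsto_ee
  refine h4.congr' ?_
  filter_upwards [h3] with τ a1
  rw [a1, ← mul_assoc, ← ee_add, neg_add_cancel]
  simp [ee]

instance : NeBot II := by
  refine comap_neBot fun t ht => ?_
  obtain ⟨Y, hY⟩ := mem_atTop_sets.1 ht
  exact ⟨(Y : ℂ) * Complex.I, hY _ (by simp)⟩

theorem Ex.unique {e : ℝ} {f : ℂ → ℂ} {a b : ℂ} (hf : Ex e f a) (hg : Ex e f b) : a = b :=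
  tendsto_nhds_unique hf.tendsto hg.tendsto

theorem Ex.zero {e : ℝ} {f : ℂ → ℂ} {a : ℂ} (hf : Ex e f a) (h0 : ∀ᶠ τ in II, f τ = 0) :
    a = 0 := by
  refine tendsto_nhds_unique hf.tendsto (tendsto_const_nhds.congr' ?_)
  filter_upwards [h0] with τ a1
  rw [a1, mul_zero]

/-- the exponent is bounded by the growth -/
theorem Ex.growth {e : ℝ} {f : ℂ → ℂ} {a : ℂ} (hf : Ex e f a) (ha : a ≠ 0) {C : ℝ}
    (hC : ∀ᶠ τ in II, ‖f τ‖ ≤ C * Real.exp (Real.pi * τ.im)) : -(1 / 2) ≤ e := by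
  by_contra hcon
  push Not at hcon
  apply ha
  refine tendsto_nhds_unique hf.tendsto ?_
  have h1 : Tendsto (fun τ : ℂ => C * Real.exp ((Real.pi + 2 * Real.pi * e) * τ.im)) II (𝓝 0) := by
    rw [show (0 : ℝ) = C * 0 by ring]
    refine Tendsto.const_mul C (Real.tendsto_exp_atBot.comp ?_)
    refine Tendsto.const_mul_atTop_of_neg ?_ tendsto_comap
    have := Real.pi_pos
    nlinarith
  refine squeeze_zero_norm' ?_ h1
  filter_upwards [hC] with τ h2
  rw [norm_mul, norm_ee]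
  have h3 : (-((e : ℂ) * τ)).im = -(e * τ.im) := by simp
  rw [h3]
  calc Real.exp (-(2 * Real.pi * -(e * τ.im))) * ‖f τ‖
      ≤ Real.exp (-(2 * Real.pi * -(e * τ.im))) * (C * Real.exp (Real.pi * τ.im)) :=
        mul_le_mul_of_nonneg_left h2 (Real.exp_nonneg _)
    _ = C * Real.exp ((Real.pi + 2 * Real.pi * e) * τ.im) := by
        rw [mul_left_comm, ← Real.exp_add]
        congr 2
        ring

/-! ### Eisenstein series -/

theorem Ex_of_per {F : ℍ → ℂ} (hper : Function.Periodic (F ∘ ofComplex) ((1 : ℝ) : ℂ))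
    (han : AnalyticAt ℂ (cuspFunction 1 F) 0) {a : ℂ} (ha : cuspFunction 1 F 0 = a) :
    Ex 0 (F ∘ ofComplex) a := by
  refine ⟨cuspFunction 1 F, han, ha, ?_⟩
  filter_upwards [ev_im 0] with τ hτ
  have := eq_cuspFunction (h := 1) (f := F) ⟨τ, hτ⟩ one_ne_zero hper
  rw [Function.comp_apply, ofComplex_apply_of_im_pos hτ, ← this]
  have h2 : Function.Periodic.qParam 1 (((⟨τ, hτ⟩ : ℍ) : ℂ)) = ee τ := qp τ
  rw [h2]
  simp [ee]

theorem Ex_E4 : Ex 0 ((ModularForm.E₄ : ℍ → ℂ) ∘ ofComplex) 1 := by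
  refine Ex_of_per ?_ ?_ ?_
  · exact SlashInvariantFormClass.periodic_comp_ofComplex _ (by simp)
  · exact ModularFormClass.analyticAt_cuspFunction_zero _ one_pos (by simp)
  · have := EisensteinSeries.E_qExpansion_coeff_zero (k := 4) (by norm_num) (by decide)
    rw [qExpansion_coeff] at this
    simpa using this

theorem Ex_E2 : Ex 0 (EisensteinSeries.E2 ∘ ofComplex) 1 := by
  have hs : ∀ τ : ℍ, HasSum (fun m : ℕ ↦ (if m = 0 then 1 else -24 * (ArithmeticFunction.sigma 1 m : ℂ)) •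
      Function.Periodic.qParam 1 (τ : ℂ) ^ m) (EisensteinSeries.E2 τ) := by
    intro τ
    simpa only [Function.Periodic.qParam, ofReal_one, div_one] using
      EisensteinSeries.hasSum_qExpansion_E2 (z := τ)
  have hper : Function.Periodic (EisensteinSeries.E2 ∘ ofComplex) ((1 : ℝ) : ℂ) := by
    intro w
    by_cases hw : 0 < w.im
    · have h1 : 0 < (w + ((1 : ℝ) : ℂ)).im := by simpa using hw
      simp only [Function.comp_apply, ofComplex_apply_of_im_pos h1, ofComplex_apply_of_im_pos hw]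
      refine (hs ⟨w + ((1 : ℝ) : ℂ), h1⟩).unique ?_
      have h2 : Function.Periodic.qParam 1 (((⟨w + ((1 : ℝ) : ℂ), h1⟩ : ℍ) : ℂ)) =
          Function.Periodic.qParam 1 (((⟨w, hw⟩ : ℍ) : ℂ)) := by
        show Function.Periodic.qParam 1 (w + ((1 : ℝ) : ℂ)) = Function.Periodic.qParam 1 w
        rw [qp, qp, ee_add]
        have : ee ((1 : ℝ) : ℂ) = 1 := by
          unfold ee
          rw [Complex.exp_eq_one_iff]
          exact ⟨1, by push_cast; ring⟩
        rw [this, mul_one]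
      rw [h2]
      exact hs ⟨w, hw⟩
    · have h1 : (w + ((1 : ℝ) : ℂ)).im ≤ 0 := by simpa using hw
      have h2 : w.im ≤ 0 := not_lt.1 hw
      rw [Function.comp_apply, Function.comp_apply, ofComplex_apply_of_im_nonpos h1,
        ofComplex_apply_of_im_nonpos h2]
  have han := analyticAt_cuspFunction_zero one_pos hper E2_mdifferentiable
    EisensteinSeries.isBoundedAtImInfty_E2
  refine Ex_of_per hper han ?_
  have h1 := hasFPowerSeriesOnBall_cuspFunction one_pos han hs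
  have h2 := h1.coeff_zero (fun _ => 0)
  rw [← h2]
  simp

/-! ### The operator -/

theorem Ex_serre {e : ℝ} {F : ℍ → ℂ} {a : ℂ} (k : ℂ) (hF : Ex e (F ∘ ofComplex) a) :
    Ex e (Derivative.serreDerivative k F ∘ ofComplex) ((e - k / 12) * a) := by
  have h1 := hF.D.add ((Ex_E2.mul hF).const_mul (-(k * 12⁻¹)) |> fun h => by rwa [zero_add] at h)
  have h2 := h1.congr (g := Derivative.serreDerivative k F ∘ ofComplex) (by
    filter_upwards [ev_im 0] with τ hτ
    simp only [Function.comp_apply, Derivative.serreDerivative,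
      Derivative.normalizedDerivOfComplex]
    have : ((ofComplex τ : ℍ) : ℂ) = τ := by
      rw [ofComplex_apply_of_im_pos hτ]
    rw [this]
    ring)
  have h3 : (e : ℂ) * a + -(k * 12⁻¹) * (1 * a) = (e - k / 12) * a := by ring
  rwa [h3] at h2

theorem Ex_Lop {e : ℝ} {u : ℂ → ℂ} {a : ℂ} (hu : Ex e u a) (h0 : ∀ z : ℍ, Lop u z = 0) :
    ((e : ℂ) + 1) * (e + 1 / 2) * a = 0 := by
  have h1 : Ex e ((fun w : ℍ => u (w : ℂ)) ∘ ofComplex) a := hu.congr (by
    filter_upwards [ev_im 0] with τ hτ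
    rw [Function.comp_apply, ofComplex_apply_of_im_pos hτ])
  have h2 := Ex_serre (-8) (Ex_serre (-10) h1)
  have h3 := (Ex_E4.mul hu).const_mul (-(1 / 18))
  rw [zero_add] at h3
  have h4 := (h2.add h3).zero (by
    filter_upwards [ev_im 0] with τ hτ
    have := h0 ⟨τ, hτ⟩
    unfold Lop at this
    rw [Function.comp_apply, Function.comp_apply, ofComplex_apply_of_im_pos hτ]
    linear_combination this)
  linear_combination h4

/-- The key alternative. -/
theorem key {θ C : ℝ} {u : ℂ → ℂ} (hu : DifferentiableOn ℂ u {τ | 0 < τ.im})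
    (hp : ∀ τ : ℂ, 0 < τ.im → u (τ + 1) = ee (-(θ : ℂ)) * u τ) (hL : ∀ z : ℍ, Lop u z = 0)
    (hC : ∀ τ : ℂ, 1 / 2 ≤ τ.im → ‖u τ‖ ≤ C * Real.exp (Real.pi * τ.im)) :
    (∀ τ : ℂ, 0 < τ.im → u τ = 0) ∨
      ((∃ k : ℤ, θ = k + 1 / 2) ∧ ∃ a : ℂ, a ≠ 0 ∧ Ex (-(1 / 2)) u a) := by
  classical
  obtain ⟨N, hN⟩ := exists_nat_ge (1 / 2 - θ)
  set P : ℂ → ℂ := fun τ => if 0 < τ.im then ee (((N : ℂ) + θ) * τ) * u τ else 0 with hP
  have hPi : ∀ τ : ℂ, 0 < τ.im → P τ = ee (((N : ℂ) + θ) * τ) * u τ := fun τ hτ => by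
    rw [hP]
    simp only [if_pos hτ]
  have hper : Function.Periodic P ((1 : ℝ) : ℂ) := by
    intro τ
    by_cases hτ : 0 < τ.im
    · have h1 : 0 < (τ + ((1 : ℝ) : ℂ)).im := by simpa using hτ
      rw [hPi _ h1, hPi _ hτ]
      have h2 : u (τ + ((1 : ℝ) : ℂ)) = ee (-(θ : ℂ)) * u τ := by
        rw [Complex.ofReal_one]
        exact hp τ hτ
      have h3 : ee (((N : ℂ) + θ) * (τ + ((1 : ℝ) : ℂ))) =
          ee (((N : ℂ) + θ) * τ) * ee θ := by
        rw [← ee_add]
        have h4 : ((N : ℂ) + θ) * (τ + ((1 : ℝ) : ℂ)) = (((N : ℂ) + θ) * τ + θ) + N := by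
          push_cast
          ring
        rw [h4, ee_add _ (N : ℂ)]
        have : ee (N : ℂ) = 1 := by
          unfold ee
          rw [Complex.exp_eq_one_iff]
          exact ⟨N, by push_cast; ring⟩
        rw [this, mul_one]
      have h4 : ee (θ : ℂ) * ee (-(θ : ℂ)) = 1 := by
        rw [← ee_add, add_neg_cancel]
        simp [ee]
      rw [h2, h3]
      linear_combination (ee (((N : ℂ) + θ) * τ) * u τ) * h4
    · have h1 : ¬ 0 < (τ + ((1 : ℝ) : ℂ)).im := by simpa using hτ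
      simp only [hP, if_neg hτ, if_neg h1]
  have hopen : IsOpen {τ : ℂ | 0 < τ.im} := isOpen_lt continuous_const Complex.continuous_im
  have hdiff : ∀ τ : ℂ, 0 < τ.im → DifferentiableAt ℂ P τ := by
    intro τ hτ
    have h1 : P =ᶠ[𝓝 τ] fun τ => ee (((N : ℂ) + θ) * τ) * u τ := by
      filter_upwards [hopen.mem_nhds hτ] with w hw using hPi w hw
    refine DifferentiableAt.congr_of_eventuallyEq ?_ h1
    refine DifferentiableAt.mul ?_ ((hu τ hτ).differentiableAt (hopen.mem_nhds hτ))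
    unfold ee
    fun_prop
  have hbd : BoundedAtFilter II P := by
    refine Asymptotics.IsBigO.of_bound C ?_
    filter_upwards [ev_im (1 / 2)] with τ hτ
    have hτ0 : 0 < τ.im := by linarith
    have h1 : (((N : ℂ) + θ) * τ).im = (N + θ) * τ.im := by
      have : ((N : ℂ) + θ) = ((N + θ : ℝ) : ℂ) := by push_cast; ring
      rw [this, Complex.im_ofReal_mul]
    rw [hPi τ hτ0, norm_mul, norm_ee, h1]
    have h2 := hC τ hτ.le
    have h3 : 0 ≤ C := by
      by_contra hneg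
      push Not at hneg
      have := norm_nonneg (u τ)
      nlinarith [Real.exp_pos (Real.pi * τ.im)]
    simp only [Pi.one_apply, norm_one, mul_one]
    calc Real.exp (-(2 * Real.pi * ((N + θ) * τ.im))) * ‖u τ‖
        ≤ Real.exp (-(2 * Real.pi * ((N + θ) * τ.im))) * (C * Real.exp (Real.pi * τ.im)) :=
          mul_le_mul_of_nonneg_left h2 (Real.exp_nonneg _)
      _ = C * Real.exp ((1 - 2 * (N + θ)) * (Real.pi * τ.im)) := by
          rw [mul_left_comm, ← Real.exp_add]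
          congr 2
          ring
      _ ≤ C * 1 := by
          refine mul_le_mul_of_nonneg_left (Real.exp_le_one_iff.2 ?_) h3
          refine mul_nonpos_of_nonpos_of_nonneg (by linarith) (by positivity)
      _ = C := mul_one C
  set Φ : ℂ → ℂ := Function.Periodic.cuspFunction 1 P with hΦ
  have hΦd : DifferentiableOn ℂ Φ (Metric.ball 0 1) := by
    intro q hq
    rw [mem_ball_zero_iff] at hq
    refine DifferentiableAt.differentiableWithinAt ?_
    rcases eq_or_ne q 0 with rfl | hq'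
    · refine hper.differentiableAt_cuspFunction_zero one_pos ?_ hbd
      filter_upwards [ev_im 0] with z hz using hdiff z hz
    · have := hper.differentiableAt_cuspFunction one_ne_zero
        (hdiff _ (Function.Periodic.im_invQParam_pos_of_norm_lt_one one_pos hq hq'))
      rwa [Function.Periodic.qParam_right_inv one_ne_zero hq'] at this
  have hΦe : ∀ τ : ℂ, Φ (ee τ) = P τ := by
    intro τ
    rw [← qp]
    exact Function.Periodic.eq_cuspFunction one_ne_zero hper τ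
  have hΦa : AnalyticOnNhd ℂ Φ (Metric.ball 0 1) := hΦd.analyticOnNhd Metric.isOpen_ball
  have h0mem : (0 : ℂ) ∈ Metric.ball (0 : ℂ) 1 := by simp
  by_cases hz : ∀ᶠ z in 𝓝 (0 : ℂ), Φ z = 0
  · left
    intro τ hτ
    have h1 := hΦa.eqOn_zero_of_preconnected_of_eventuallyEq_zero
      (convex_ball (0 : ℂ) 1).isPreconnected h0mem hz
    have h2 : ee τ ∈ Metric.ball (0 : ℂ) 1 := by
      rw [mem_ball_zero_iff, ← qp]
      exact Function.Periodic.norm_qParam_lt_one one_pos hτ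
    have h3 := h1 h2
    rw [hΦe, hPi τ hτ] at h3
    exact (mul_eq_zero.1 h3).resolve_left (ee_ne_zero _)
  · right
    obtain ⟨n, h, h1, h2, h3⟩ := (hΦa 0 h0mem).exists_eventuallyEq_pow_smul_nonzero_iff.2 hz
    have hEx : Ex (n - N - θ) u (h 0) := by
      refine ⟨h, h1, rfl, ?_⟩
      filter_upwards [ev_im 0, tendsto_ee.eventually h3] with τ hτ h4
      rw [hΦe, hPi τ hτ, sub_zero, smul_eq_mul] at h4
      have h5 : ee (-(((N : ℂ) + θ) * τ)) * ee (((N : ℂ) + θ) * τ) = 1 := by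
        rw [← ee_add, neg_add_cancel]
        simp [ee]
      have h6 : ee τ ^ n = ee (n * τ) := by
        unfold ee
        rw [← Complex.exp_nat_mul]
        congr 1
        ring
      have h7 : ee (((n - N - θ : ℝ) : ℂ) * τ) = ee (-(((N : ℂ) + θ) * τ)) * ee (n * τ) := by
        rw [← ee_add]
        congr 1
        push_cast
        ring
      rw [h7, ← h6]
      linear_combination ee (-(((N : ℂ) + θ) * τ)) * h4 - u τ * h5
    have h4 := Ex_Lop hEx hL
    have h5 : -(1 / 2) ≤ (n - N - θ : ℝ) := hEx.growth h2 (by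
      filter_upwards [ev_im (1 / 2)] with τ hτ using hC τ hτ.le)
    have h6 : ((((n - N - θ : ℝ) + 1) * ((n - N - θ : ℝ) + 1 / 2) : ℝ) : ℂ) * h 0 = 0 := by
      push_cast at h4 ⊢
      linear_combination h4
    have h7 : (((n - N - θ : ℝ) + 1) * ((n - N - θ : ℝ) + 1 / 2) : ℝ) = 0 := by
      have := (mul_eq_zero.1 h6).resolve_right h2
      exact_mod_cast this
    have h8 : (n - N - θ : ℝ) = -(1 / 2) := by
      rcases mul_eq_zero.1 h7 with h9 | h9 <;> linarith
    refine ⟨⟨n - N, ?_⟩, h 0, h2, ?_⟩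
    · push_cast
      linarith
    · rwa [h8] at hEx

theorem ode2a : S_ODE2A := by
  intro θ C u hu hp hL hC hθ
  exact (key hu hp hL hC).resolve_right fun h => hθ h.1

theorem Lop_add {u v : ℂ → ℂ} (hu : DifferentiableOn ℂ u {τ | 0 < τ.im})
    (hv : DifferentiableOn ℂ v {τ | 0 < τ.im}) (a b : ℂ) (z : ℍ) :
    Lop (fun τ => a * u τ + b * v τ) z = a * Lop u z + b * Lop v z := by
  have hm : ∀ {u : ℂ → ℂ}, DifferentiableOn ℂ u {τ | 0 < τ.im} → MDiff (fun w : ℍ => u (w : ℂ)) := by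
    intro u hu
    rw [UpperHalfPlane.mdifferentiable_iff]
    refine hu.congr fun w hw => ?_
    rw [Function.comp_apply, ofComplex_apply_of_im_pos hw]
  have hU := hm hu
  have hV := hm hv
  have e1 : (fun w : ℍ => a * u (w : ℂ) + b * v (w : ℂ)) =
      a • (fun w : ℍ => u (w : ℂ)) + b • (fun w : ℍ => v (w : ℂ)) := rfl
  unfold Lop
  rw [e1, Derivative.serreDerivative_add _ _ _ (hU.const_smul a) (hV.const_smul b),
    Derivative.serreDerivative_smul _ _ _ hU, Derivative.serreDerivative_smul _ _ _ hV,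
    Derivative.serreDerivative_add _ _ _
      ((Derivative.serreDerivative_mdifferentiable _ hU).const_smul a)
      ((Derivative.serreDerivative_mdifferentiable _ hV).const_smul b),
    Derivative.serreDerivative_smul _ _ _ (Derivative.serreDerivative_mdifferentiable _ hU),
    Derivative.serreDerivative_smul _ _ _ (Derivative.serreDerivative_mdifferentiable _ hV)]
  simp only [Pi.add_apply, Pi.smul_apply, smul_eq_mul]
  ring

theorem ode2b : S_ODE2B := by
  intro C u v hu hv hpu hpv hLu hLv hCu hCv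
  have hhalf : ee (-(((1 / 2 : ℝ) : ℂ))) = -1 := by
    unfold ee
    have : 2 * (Real.pi : ℂ) * Complex.I * -(((1 / 2 : ℝ) : ℂ)) = -(Real.pi * Complex.I) := by
      push_cast
      ring
    rw [this, Complex.exp_neg, Complex.exp_pi_mul_I]
    norm_num
  have hpu' : ∀ τ : ℂ, 0 < τ.im → u (τ + 1) = ee (-(((1 / 2 : ℝ) : ℂ))) * u τ := by
    intro τ hτ
    rw [hhalf, hpu τ hτ]
    ring
  have hpv' : ∀ τ : ℂ, 0 < τ.im → v (τ + 1) = ee (-(((1 / 2 : ℝ) : ℂ))) * v τ := by
    intro τ hτ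
    rw [hhalf, hpv τ hτ]
    ring
  rcases key hu hpu' hLu hCu with h1 | ⟨-, a, ha, hEa⟩
  · exact ⟨1, 0, Or.inl one_ne_zero, fun τ hτ => by rw [h1 τ hτ]; ring⟩
  rcases key hv hpv' hLv hCv with h1 | ⟨-, b, hb, hEb⟩
  · exact ⟨0, 1, Or.inr one_ne_zero, fun τ hτ => by rw [h1 τ hτ]; ring⟩
  refine ⟨b, -a, Or.inl hb, ?_⟩
  have hw : DifferentiableOn ℂ (fun τ => b * u τ + -a * v τ) {τ | 0 < τ.im} :=
    (hu.const_mul b).add (hv.const_mul (-a))
  have hpw : ∀ τ : ℂ, 0 < τ.im → (fun τ => b * u τ + -a * v τ) (τ + 1) =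
      ee (-(((1 / 2 : ℝ) : ℂ))) * (fun τ => b * u τ + -a * v τ) τ := by
    intro τ hτ
    simp only
    rw [hpu' τ hτ, hpv' τ hτ]
    ring
  have hLw : ∀ z : ℍ, Lop (fun τ => b * u τ + -a * v τ) z = 0 := by
    intro z
    rw [Lop_add hu hv, hLu, hLv]
    ring
  have hCw : ∀ τ : ℂ, 1 / 2 ≤ τ.im → ‖(fun τ => b * u τ + -a * v τ) τ‖ ≤
      ((‖b‖ + ‖a‖) * C) * Real.exp (Real.pi * τ.im) := by
    intro τ hτ
    simp only
    calc ‖b * u τ + -a * v τ‖ ≤ ‖b * u τ‖ + ‖-a * v τ‖ := norm_add_le _ _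
      _ = ‖b‖ * ‖u τ‖ + ‖a‖ * ‖v τ‖ := by rw [norm_mul, norm_mul, norm_neg]
      _ ≤ ‖b‖ * (C * Real.exp (Real.pi * τ.im)) + ‖a‖ * (C * Real.exp (Real.pi * τ.im)) :=
          add_le_add (mul_le_mul_of_nonneg_left (hCu τ hτ) (norm_nonneg _))
            (mul_le_mul_of_nonneg_left (hCv τ hτ) (norm_nonneg _))
      _ = _ := by ring
  rcases key hw hpw hLw hCw with h1 | ⟨-, c, hc, hEc⟩
  · exact h1
  · exfalso
    apply hc
    have := ((hEa.const_mul b).add (hEb.const_mul (-a))).unique hEc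
    rw [← this]
    ring

end

end Pool.Agent.Q98.RL.Od
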