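import Pool.Agent.Q248.RL.Stm2
import Pool.Agent.Y813.RL.Bf

set_option autoImplicit false

/-!
# Positive definite real forms of equal rank are isometric (job GENUS-REAL)
-/

open Matrix
open scoped MatrixOrder

namespace Pool.Agent.Q98.RL.Rl

open Pool.Agent.Y813.RL

noncomputable section

theorem bf_dot {ι : Type} [Fintype ι] (B : Matrix ι ι ℤ) (x y : ι → ℝ) :
    bf B x y = x ⬝ᵥ (B.map (Int.cast : ℤ → ℝ) *ᵥ y) := by
  simp only [bf, Matrix.mulVec, dotProduct, Matrix.map_apply, Finset.mul_sum, mul_assoc]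

theorem exists_iso {ι : Type} [Fintype ι] (B : Matrix ι ι ℤ) (hs : B.IsSymm)
    (hp : ∀ x : ι → ℝ, x ≠ 0 → 0 < bf B x x) :
    ∃ e : (ι → ℝ) ≃ₗ[ℝ] (ι → ℝ), ∀ x y, bf B x y = e x ⬝ᵥ e y := by
  classical
  have hpd : (B.map (Int.cast : ℤ → ℝ)).PosDef := by
    refine Matrix.PosDef.of_dotProduct_mulVec_pos ?_ ?_
    · rw [Matrix.IsHermitian, Matrix.conjTranspose_eq_transpose_of_trivial, ← Matrix.transpose_map,
        hs.eq]
    · intro x hx
      have := hp x hx
      rw [bf_dot] at this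
      simpa using this
  set P := CFC.sqrt (B.map (Int.cast : ℤ → ℝ)) with hP
  have hPP : P * P = B.map (Int.cast : ℤ → ℝ) := CFC.sqrt_mul_sqrt_self _ hpd.posSemidef.nonneg
  have hPt : P.transpose = P := by
    have := (CFC.sqrt_nonneg (B.map (Int.cast : ℤ → ℝ))).posSemidef.1
    rwa [Matrix.IsHermitian, Matrix.conjTranspose_eq_transpose_of_trivial] at this
  have hu : IsUnit P.det := by
    have h1 : P.det * P.det ≠ 0 := by
      rw [← Matrix.det_mul, hPP]
      exact hpd.det_pos.ne'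
    exact isUnit_iff_ne_zero.2 (left_ne_zero_of_mul h1)
  refine ⟨Matrix.toLin'OfInv (Matrix.nonsing_inv_mul _ hu) (Matrix.mul_nonsing_inv _ hu), ?_⟩
  intro x y
  rw [bf_dot, ← hPP, ← Matrix.mulVec_mulVec, Matrix.dotProduct_mulVec]
  nth_rewrite 1 [← hPt]
  rw [Matrix.vecMul_transpose]
  rfl

theorem real : Pool.Agent.Q248.RL.S_Real := by
  intro ι κ _ _ B C hcard hBs hCs hB hC
  obtain ⟨e, he⟩ := exists_iso B hBs hB
  obtain ⟨f, hf⟩ := exists_iso C hCs hC
  let r : ι ≃ κ := Fintype.equivOfCardEq hcard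
  refine ⟨(e.trans (LinearEquiv.funCongrLeft ℝ ℝ r.symm)).trans f.symm, ?_⟩
  intro x y
  rw [hf, he]
  simp only [LinearEquiv.trans_apply, LinearEquiv.apply_symm_apply]
  simp only [dotProduct, LinearEquiv.funCongrLeft_apply, LinearMap.funLeft_apply]
  exact Equiv.sum_comp r.symm fun i => e x i * e y i

end

end Pool.Agent.Q98.RL.Rl
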