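import Pool.Agent.Y813.RL.Bf

set_option autoImplicit false

/-!
# The inversion formula of the theta components (job THETA2)
-/

open MeasureTheory Complex Set Matrix
open scoped MatrixOrder

namespace Pool.Agent.Q98.RL.Th2

open Pool.Agent.Y813.RL

noncomputable section

theorem ee_add (x y : ℂ) : ee (x + y) = ee x * ee y := by
  unfold ee
  rw [mul_add, Complex.exp_add]

theorem ee_ne_zero (x : ℂ) : ee x ≠ 0 := Complex.exp_ne_zero _

theorem ee_int (n : ℤ) : ee n = 1 := by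
  unfold ee
  rw [Complex.exp_eq_one_iff]
  exact ⟨n, by ring⟩

theorem norm_ee (x : ℂ) : ‖ee x‖ = Real.exp (-(2 * Real.pi * x.im)) := by
  unfold ee
  rw [Complex.norm_exp]
  congr 1
  simp

theorem ee_continuous : Continuous ee := by
  unfold ee
  fun_prop

variable {A : Matrix (Fin 20) (Fin 20) ℤ}

/-- real Gram matrix -/
abbrev AR (A : Matrix (Fin 20) (Fin 20) ℤ) : Matrix (Fin 20) (Fin 20) ℝ :=
  A.map (Int.cast : ℤ → ℝ)

theorem bf_eq_dot (x y : Fin 20 → ℝ) : bf A x y = x ⬝ᵥ (AR A *ᵥ y) := by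
  simp only [bf, Matrix.mulVec, dotProduct, Matrix.map_apply, Finset.mul_sum, mul_assoc]

theorem AR_det : (AR A).det = (A.det : ℝ) := by
  have := (Int.castRingHom ℝ).map_det A
  simpa [AR, RingHom.mapMatrix_apply] using this.symm

theorem posDef (h : PosSymm A) : (AR A).PosDef := by
  refine Matrix.PosDef.of_dotProduct_mulVec_pos ?_ ?_
  · rw [Matrix.IsHermitian, Matrix.conjTranspose_eq_transpose_of_trivial, ← Matrix.transpose_map,
      h.symm.eq]
  · intro x hx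
    have := h.pos x hx
    rw [bf_eq_dot] at this
    simpa using this

theorem exists_P (h : PosSymm A) : ∃ P : Matrix (Fin 20) (Fin 20) ℝ, P.transpose = P ∧
    P * P = AR A ∧ P.det = Real.sqrt (A.det : ℝ) ∧ 0 < P.det := by
  have hp := posDef h
  have h0 : 0 ≤ AR A := hp.posSemidef.nonneg
  have hd := hp.posSemidef.det_sqrt
  have hdet : (CFC.sqrt (AR A)).det = Real.sqrt (A.det : ℝ) := by
    rw [hd, AR_det, RCLike.sqrt_of_nonneg (by rw [← AR_det]; exact hp.det_pos.le)]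
    simp
  refine ⟨CFC.sqrt (AR A), ?_, CFC.sqrt_mul_sqrt_self _ h0, hdet, ?_⟩
  · have := (CFC.sqrt_nonneg (AR A)).posSemidef.1
    rwa [Matrix.IsHermitian, Matrix.conjTranspose_eq_transpose_of_trivial] at this
  · rw [hdet]
    apply Real.sqrt_pos.2
    rw [← AR_det]
    exact hp.det_pos

/-- The Gaussian integrand. -/
def gs (A : Matrix (Fin 20) (Fin 20) ℤ) (τ : ℂ) (μ : Fin 20 → ℤ) (x : Fin 20 → ℝ) : ℂ :=
  ee (-(((bf A x x : ℝ) : ℂ) / (2 * τ))) * ee (-((dt μ x : ℝ) : ℂ))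

theorem gauss (h : PosSymm A) {τ : ℂ} (hτ : 0 < τ.im) (μ : Fin 20 → ℤ) :
    Integrable (gs A τ μ) ∧
    ∫ x, gs A τ μ x = -(τ ^ 10) / (Real.sqrt (A.det : ℝ) : ℂ) * ee (τ * (bd A μ μ : ℂ) / 2) := by
  obtain ⟨P, hPt, hPP, hPd, hPpos⟩ := exists_P h
  have hτ0 : τ ≠ 0 := by
    intro h0
    rw [h0] at hτ
    simp at hτ
  have hu : IsUnit P.det := isUnit_iff_ne_zero.2 hPpos.ne'
  set b : ℂ := Real.pi * Complex.I / τ with hb
  have hbre : 0 < b.re := by
    have h1 : b = Real.pi * (Complex.I * τ⁻¹) := by rw [hb]; ring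
    rw [h1, Complex.re_ofReal_mul, Complex.I_mul_re, Complex.inv_im]
    have h2 : 0 < Complex.normSq τ := Complex.normSq_pos.2 hτ0
    have h3 : 0 < τ.im / Complex.normSq τ := div_pos hτ h2
    have h4 : -(-τ.im / Complex.normSq τ) = τ.im / Complex.normSq τ := by ring
    rw [h4]
    exact mul_pos Real.pi_pos h3
  set m : Fin 20 → ℝ := P⁻¹ *ᵥ (fun j => (μ j : ℝ)) with hm
  set c : Fin 20 → ℂ := fun i => -(2 * Real.pi * Complex.I) * (m i : ℂ) with hc
  set F : (Fin 20 → ℝ) → ℂ := fun u => cexp (-b * ∑ i, (u i : ℂ) ^ 2 + ∑ i, c i * u i) with hF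
  have e1 : ∀ x : Fin 20 → ℝ, bf A x x = ∑ i, ((P *ᵥ x) i) ^ 2 := by
    intro x
    rw [bf_eq_dot, ← hPP, ← Matrix.mulVec_mulVec, Matrix.dotProduct_mulVec]
    nth_rewrite 1 [← hPt]
    rw [Matrix.vecMul_transpose]
    simp [dotProduct, sq]
  have e2 : ∀ x : Fin 20 → ℝ, dt μ x = ∑ i, m i * (P *ᵥ x) i := by
    intro x
    have : dt μ x = (fun j => (μ j : ℝ)) ⬝ᵥ x := by simp [dt, dotProduct]
    rw [this]
    have h2 : ∑ i, m i * (P *ᵥ x) i = m ⬝ᵥ (P *ᵥ x) := rfl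
    rw [h2, Matrix.dotProduct_mulVec, ← Matrix.mulVec_transpose, hPt, hm, Matrix.mulVec_mulVec,
      Matrix.mul_nonsing_inv _ hu, Matrix.one_mulVec]
  have e3 : ∀ x : Fin 20 → ℝ, gs A τ μ x = F (Matrix.toLin' P x) := by
    intro x
    have h1 : gs A τ μ x = cexp (-b * ((bf A x x : ℝ) : ℂ) +
        -(2 * Real.pi * Complex.I) * ((dt μ x : ℝ) : ℂ)) := by
      unfold gs
      rw [← ee_add]
      unfold ee
      congr 1
      rw [hb]
      field_simp
    rw [h1, hF, e1, e2]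
    simp only [Matrix.toLin'_apply]
    congr 1
    push_cast
    rw [Finset.mul_sum (a := -(2 * (Real.pi : ℂ) * Complex.I))]
    congr 1
    refine Finset.sum_congr rfl fun i _ => ?_
    rw [hc]
    ring
  have e4 : bd A μ μ = ∑ i, m i ^ 2 := by
    have h1 : bd A μ μ = (fun j => (μ j : ℝ)) ⬝ᵥ ((AR A)⁻¹ *ᵥ (fun j => (μ j : ℝ))) := by
      simp [bd, dotProduct]
    rw [h1, ← hPP, Matrix.mul_inv_rev, ← Matrix.mulVec_mulVec, Matrix.dotProduct_mulVec,
      ← Matrix.mulVec_transpose, Matrix.transpose_nonsing_inv, hPt]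
    simp [dotProduct, sq, hm]
  have hmap := Real.map_matrix_volume_pi_eq_smul_volume_pi hPpos.ne'
  have hint := GaussianFourier.integrable_cexp_neg_mul_sum_add hbre c
  have hval := GaussianFourier.integral_cexp_neg_mul_sum_add hbre c
  have hmeas : AEMeasurable (Matrix.toLin' P) (volume : Measure (Fin 20 → ℝ)) :=
    (LinearMap.continuous_of_finiteDimensional _).aemeasurable
  have hfun : gs A τ μ = F ∘ (Matrix.toLin' P) := by
    funext x
    exact e3 x
  have hF' : AEStronglyMeasurable F (Measure.map (Matrix.toLin' P) volume) := by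
    rw [hF]
    exact Continuous.aestronglyMeasurable (by fun_prop)
  refine ⟨?_, ?_⟩
  · rw [hfun, ← integrable_map_measure hF' hmeas, hmap]
    exact hint.smul_measure ENNReal.ofReal_ne_top
  · have h1 : ∫ x, gs A τ μ x = ∫ u, F u ∂(Measure.map (Matrix.toLin' P) volume) := by
      rw [integral_map hmeas hF']
      exact integral_congr_ae (Filter.Eventually.of_forall e3)
    rw [h1, hmap, integral_smul_measure, hval, ENNReal.toReal_ofReal (abs_nonneg _),
      abs_of_pos (inv_pos.2 hPpos), hPd]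
    have h2 : (Fintype.card (Fin 20) / 2 : ℂ) = ((10 : ℕ) : ℂ) := by
      simp
      norm_num
    have h3 : (Real.pi / b : ℂ) = -Complex.I * τ := by
      rw [hb]
      have := Complex.I_ne_zero
      have hpi : (Real.pi : ℂ) ≠ 0 := by exact_mod_cast Real.pi_ne_zero
      field_simp
      simp
    have h4 : (-Complex.I * τ) ^ 10 = -(τ ^ 10) := by
      rw [mul_pow, neg_pow]
      have : Complex.I ^ 10 = -1 := by
        rw [show (10 : ℕ) = 4 * 2 + 2 by norm_num, pow_add, pow_mul, Complex.I_pow_four]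
        simp
      rw [this]
      ring
    have h5 : (∑ i, c i ^ 2) / (4 * b) = 2 * Real.pi * Complex.I * (τ * (bd A μ μ : ℂ) / 2) := by
      have h6 : ∑ i, c i ^ 2 = -(4 * Real.pi ^ 2) * (bd A μ μ : ℂ) := by
        rw [e4]
        push_cast
        rw [Finset.mul_sum]
        refine Finset.sum_congr rfl fun i _ => ?_
        rw [hc]
        simp only
        ring_nf
        rw [Complex.I_sq]
        ring
      rw [h6, hb]
      have := Complex.I_ne_zero
      have hpi : (Real.pi : ℂ) ≠ 0 := by exact_mod_cast Real.pi_ne_zero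
      field_simp
      rw [Complex.I_sq]
      ring
    rw [h2, Complex.cpow_natCast, h3, h4, h5]
    simp only [ee, Complex.real_smul]
    push_cast
    ring

/-! ### Unfolding -/

/-- half open unit cube at `v` -/
def cub (v : Fin 20 → ℤ) : Set (Fin 20 → ℝ) := Set.pi Set.univ fun i => Ico (v i : ℝ) (v i + 1)

theorem mem_cub {v : Fin 20 → ℤ} {x : Fin 20 → ℝ} : x ∈ cub v ↔ ∀ i, ⌊x i⌋ = v i := by
  simp only [cub, Set.mem_pi, Set.mem_univ, true_imp_iff, Set.mem_Ico, Int.floor_eq_iff]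

theorem meas_cub (v : Fin 20 → ℤ) : MeasurableSet (cub v) :=
  MeasurableSet.univ_pi fun _ => measurableSet_Ico

theorem setIntegral_cub {E : Type*} [NormedAddCommGroup E] [NormedSpace ℝ E]
    (f : (Fin 20 → ℝ) → E) (v : Fin 20 → ℤ) :
    ∫ x in cub v, f x = ∫ y in Set.Icc (0 : Fin 20 → ℝ) 1, f (y + fun i => (v i : ℝ)) := by
  have h1 : ∫ y in Set.Icc (0 : Fin 20 → ℝ) 1, f (y + fun i => (v i : ℝ)) =
      ∫ y in cub 0, f (y + fun i => (v i : ℝ)) := by
    refine setIntegral_congr_set ?_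
    have := (Measure.univ_pi_Ico_ae_eq_Icc (μ := fun _ : Fin 20 => (volume : Measure ℝ))
      (f := fun _ => (0 : ℝ)) (g := fun _ => (1 : ℝ)))
    have h2 : cub 0 = Set.pi Set.univ fun _ : Fin 20 => Ico (0 : ℝ) 1 := by
      unfold cub
      congr 1
      funext i
      simp
    rw [h2]
    exact this.symm
  rw [h1, ← integral_indicator (meas_cub v), ← integral_indicator (meas_cub 0),
    ← integral_add_right_eq_self _ (fun i => (v i : ℝ))]
  refine integral_congr_ae (Filter.Eventually.of_forall fun x => ?_)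
  simp only
  have h3 : x + (fun i => (v i : ℝ)) ∈ cub v ↔ x ∈ cub 0 := by
    rw [mem_cub, mem_cub]
    refine forall_congr' fun i => ?_
    simp
  by_cases hx : x ∈ cub 0
  · rw [Set.indicator_of_mem hx, Set.indicator_of_mem (h3.2 hx)]
  · rw [Set.indicator_of_notMem hx, Set.indicator_of_notMem fun h => hx (h3.1 h)]

theorem unfold_sum {E : Type*} [NormedAddCommGroup E] [NormedSpace ℝ E]
    {f : (Fin 20 → ℝ) → E} (hf : Integrable f) :
    HasSum (fun v : Fin 20 → ℤ => ∫ y in Set.Icc (0 : Fin 20 → ℝ) 1, f (y + fun i => (v i : ℝ)))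
      (∫ x, f x) := by
  have h1 : (⋃ v, cub v) = Set.univ := by
    refine Set.eq_univ_of_forall fun x => Set.mem_iUnion.2 ⟨fun i => ⌊x i⌋, ?_⟩
    rw [mem_cub]
    exact fun i => rfl
  have h2 : Pairwise (Function.onFun Disjoint cub) := by
    intro v w hvw
    refine Set.disjoint_left.2 fun x hx hx' => hvw ?_
    rw [mem_cub] at hx hx'
    funext i
    rw [← hx i, hx' i]
  have h3 := hasSum_integral_iUnion (μ := volume) (f := f) meas_cub h2 (by
    rw [h1]
    exact hf.integrableOn)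
  rw [h1, Measure.restrict_univ] at h3
  simpa only [setIntegral_cub] using h3

/-! ### The dual lattice -/

/-- the vector `A⁻¹ ν` -/
def av (A : Matrix (Fin 20) (Fin 20) ℤ) (ν : Fin 20 → ℤ) : Fin 20 → ℝ :=
  (AR A)⁻¹ *ᵥ (fun j => (ν j : ℝ))

theorem isUnit_det (h : PosSymm A) : IsUnit (AR A).det :=
  isUnit_iff_ne_zero.2 (posDef h).det_pos.ne'

theorem bd_eq (μ ν : Fin 20 → ℤ) : bd A μ ν = dt μ (av A ν) := rfl

theorem bf_av (h : PosSymm A) (ν : Fin 20 → ℤ) (y : Fin 20 → ℝ) : bf A y (av A ν) = dt ν y := by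
  rw [bf_eq_dot, av, Matrix.mulVec_mulVec, Matrix.mul_nonsing_inv _ (isUnit_det h),
    Matrix.one_mulVec, dotProduct_comm]
  rfl

theorem bf_sub_av (h : PosSymm A) (ν : Fin 20 → ℤ) (y : Fin 20 → ℝ) :
    bf A (y - av A ν) (y - av A ν) = bf A y y - 2 * dt ν y + bd A ν ν := by
  rw [bf_sub_left, bf_sub_right, bf_sub_right, bf_av h, bf_av h, bf_comm h.symm (av A ν) y,
    bf_av h, bd_eq]
  ring

theorem av_add (h : PosSymm A) (ρ v : Fin 20 → ℤ) :
    av A (ρ + A.mulVec v) = av A ρ + fun i => (v i : ℝ) := by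
  have h1 : (fun j => ((ρ + A.mulVec v) j : ℝ)) =
      (fun j => (ρ j : ℝ)) + AR A *ᵥ (fun j => (v j : ℝ)) := by
    funext j
    simp [Matrix.mulVec, dotProduct]
  rw [av, h1, Matrix.mulVec_add, Matrix.mulVec_mulVec, Matrix.nonsing_inv_mul _ (isUnit_det h),
    Matrix.one_mulVec]
  rfl

/-- the shifted Gaussian -/
def hs (A : Matrix (Fin 20) (Fin 20) ℤ) (τ : ℂ) (μ ν : Fin 20 → ℤ) (x : Fin 20 → ℝ) : ℂ :=
  ee (-(((bf A (x - av A ν) (x - av A ν) : ℝ) : ℂ) / (2 * τ))) * ee (-((dt μ x : ℝ) : ℂ))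

theorem hs_eq (τ : ℂ) (μ ν : Fin 20 → ℤ) (x : Fin 20 → ℝ) :
    hs A τ μ ν x = ee (-(bd A μ ν : ℂ)) * gs A τ μ (x + (- av A ν)) := by
  unfold hs gs
  have h1 : (dt μ (x + - av A ν) : ℝ) = dt μ x - bd A μ ν := by
    rw [bd_eq]
    simp only [dt, Pi.add_apply, Pi.neg_apply, ← Finset.sum_sub_distrib]
    exact Finset.sum_congr rfl fun i _ => by ring
  have h2 : ee (-((dt μ x : ℝ) : ℂ)) =
      ee (-(bd A μ ν : ℂ)) * ee (-((dt μ x - bd A μ ν : ℝ) : ℂ)) := by
    rw [← ee_add]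
    congr 1
    push_cast
    ring
  rw [h1, ← sub_eq_add_neg, h2]
  ring

theorem hs_int (h : PosSymm A) {τ : ℂ} (hτ : 0 < τ.im) (μ ν : Fin 20 → ℤ) :
    Integrable (hs A τ μ ν) := by
  have h1 : hs A τ μ ν = fun x => ee (-(bd A μ ν : ℂ)) * gs A τ μ (x + (- av A ν)) :=
    funext fun x => hs_eq τ μ ν x
  rw [h1]
  exact ((gauss h hτ μ).1.comp_add_right _).const_mul _

theorem hs_val (h : PosSymm A) {τ : ℂ} (hτ : 0 < τ.im) (μ ν : Fin 20 → ℤ) :
    ∫ x, hs A τ μ ν x = ee (-(bd A μ ν : ℂ)) *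
      (-(τ ^ 10) / (Real.sqrt (A.det : ℝ) : ℂ) * ee (τ * (bd A μ μ : ℂ) / 2)) := by
  have h1 : hs A τ μ ν = fun x => ee (-(bd A μ ν : ℂ)) * gs A τ μ (x + (- av A ν)) :=
    funext fun x => hs_eq τ μ ν x
  rw [h1, integral_const_mul, integral_add_right_eq_self (gs A τ μ), (gauss h hτ μ).2]

theorem hs_add (h : PosSymm A) (τ : ℂ) (μ ρ v : Fin 20 → ℤ) (y : Fin 20 → ℝ) :
    hs A τ μ (ρ + A.mulVec v) y = hs A τ μ ρ (y + fun i => ((-v i : ℤ) : ℝ)) := by
  unfold hs
  have h1 : y - av A (ρ + A.mulVec v) = (y + fun i => ((-v i : ℤ) : ℝ)) - av A ρ := by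
    rw [av_add h]
    funext i
    simp
    ring
  have h2 : ((dt μ (y + fun i => ((-v i : ℤ) : ℝ)) : ℝ) : ℂ) =
      ((dt μ y : ℝ) : ℂ) - ((∑ i, μ i * v i : ℤ) : ℂ) := by
    simp only [dt, Pi.add_apply]
    push_cast
    rw [← Finset.sum_sub_distrib]
    exact Finset.sum_congr rfl fun i _ => by ring
  have h3 : ee (-(((dt μ y : ℝ) : ℂ) - ((∑ i, μ i * v i : ℤ) : ℂ))) =
      ee (-((dt μ y : ℝ) : ℂ)) := by
    rw [neg_sub, sub_eq_add_neg, ee_add, ee_int, one_mul]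
  rw [h1, h2, h3]

theorem theta2 (h1 : JobTheta1) : JobTheta2 := by
  intro A c R hA hc hR μ τ hτ
  obtain ⟨-, -, -, hvf, hFou⟩ := h1 A c hA hc
  have hτ0 : τ ≠ 0 := by
    intro h0
    rw [h0] at hτ
    simp at hτ
  have hT : 0 < (-1 / τ).im := by
    rw [neg_div, Complex.neg_im, one_div, Complex.inv_im]
    have : 0 < Complex.normSq τ := Complex.normSq_pos.2 hτ0
    have := div_pos hτ this
    linarith [neg_div (Complex.normSq τ) τ.im]
  -- pointwise expansion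
  have key : ∀ y : Fin 20 → ℝ, HasSum (fun ν : Fin 20 → ℤ => vf A c ν (-1 / τ) * hs A τ μ ν y)
      (c τ (fun i => (y i : ℂ)) * ee (-(dt μ (fun i => (y i : ℂ))))) := by
    intro y
    have e1 := hFou (-1 / τ) (fun i => (y i : ℂ) / τ) hT
    have e2 := hc.S τ (fun i => (y i : ℂ)) hτ
    have e3 : bf A (fun i => (y i : ℂ)) (fun i => (y i : ℂ)) = ((bf A y y : ℝ) : ℂ) :=
      bf_ofReal A y y
    have e4 : ∀ ν : Fin 20 → ℤ, dt ν (fun i => (y i : ℂ)) = ((dt ν y : ℝ) : ℂ) := by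
      intro ν
      simp [dt]
    have e5 : ∀ ν : Fin 20 → ℤ, dt ν (fun i => (y i : ℂ) / τ) = ((dt ν y : ℝ) : ℂ) / τ := by
      intro ν
      simp [dt, Finset.sum_div, mul_div_assoc]
    rw [e2, e3] at e1
    have e6 := e1.mul_right (ee (-(((bf A y y : ℝ) : ℂ) / (2 * τ))) * ee (-(dt μ (fun i => (y i : ℂ)))))
    have e7 : ee (((bf A y y : ℝ) : ℂ) / (2 * τ)) * c τ (fun i => (y i : ℂ)) *
        (ee (-(((bf A y y : ℝ) : ℂ) / (2 * τ))) * ee (-(dt μ (fun i => (y i : ℂ))))) =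
        c τ (fun i => (y i : ℂ)) * ee (-(dt μ (fun i => (y i : ℂ)))) := by
      have : ee (((bf A y y : ℝ) : ℂ) / (2 * τ)) * ee (-(((bf A y y : ℝ) : ℂ) / (2 * τ))) = 1 := by
        rw [← ee_add, add_neg_cancel]
        simp [ee]
      linear_combination (c τ (fun i => (y i : ℂ)) * ee (-(dt μ (fun i => (y i : ℂ))))) * this
    rw [e7] at e6
    refine e6.congr_fun ?_
    intro ν
    unfold vf hs
    rw [bf_sub_av hA, e4, e5]
    have : ee (-(-1 / τ * (bd A ν ν : ℂ) / 2)) *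
        ee (-(((bf A y y - 2 * dt ν y + bd A ν ν : ℝ) : ℂ) / (2 * τ))) =
        ee (((dt ν y : ℝ) : ℂ) / τ) * ee (-(((bf A y y : ℝ) : ℂ) / (2 * τ))) := by
      rw [← ee_add, ← ee_add]
      congr 1
      push_cast
      field_simp
      ring
    linear_combination (fc c ν (-1 / τ) * ee (-((dt μ y : ℝ) : ℂ))) * this
  -- reindexing
  have hinj : Function.Injective A.mulVec := by
    intro v w hvw
    have h2 := av_add hA 0 v
    have h3 := av_add hA 0 w
    rw [hvw, h3] at h2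
    funext i
    have := congrFun h2 i
    simp only [Pi.add_apply, add_right_inj, Int.cast_inj] at this
    exact this.symm
  let g : R × (Fin 20 → ℤ) → (Fin 20 → ℤ) := fun p => p.1.1 + A.mulVec p.2
  have hg : Function.Bijective g := by
    constructor
    · rintro ⟨ρ, v⟩ ⟨ρ', v'⟩ hpq
      obtain ⟨x, -, hx⟩ := hR (ρ.1 + A.mulVec v)
      have a1 := hx ρ.1 ⟨ρ.2, v, rfl⟩
      have a2 := hx ρ'.1 ⟨ρ'.2, v', hpq⟩
      have a3 : ρ = ρ' := Subtype.ext (a1.trans a2.symm)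
      subst a3
      have a4 : A.mulVec v = A.mulVec v' := add_left_cancel hpq
      rw [hinj a4]
    · intro ν
      obtain ⟨ρ, ⟨hρ, v, hv⟩, -⟩ := hR ν
      exact ⟨(⟨ρ, hρ⟩, v), hv.symm⟩
  let e : R × (Fin 20 → ℤ) ≃ (Fin 20 → ℤ) := Equiv.ofBijective g hg
  -- the functions
  let F : R × (Fin 20 → ℤ) → (Fin 20 → ℝ) → ℂ := fun p y =>
    vf A c p.1.1 (-1 / τ) * hs A τ μ p.1.1 (y + fun i => ((-p.2 i : ℤ) : ℝ))
  have hFe : ∀ p y, F p y = vf A c (e p) (-1 / τ) * hs A τ μ (e p) y := by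
    rintro ⟨ρ, v⟩ y
    show vf A c ρ.1 (-1 / τ) * hs A τ μ ρ.1 (y + fun i => ((-v i : ℤ) : ℝ)) =
      vf A c (ρ.1 + A.mulVec v) (-1 / τ) * hs A τ μ (ρ.1 + A.mulVec v) y
    rw [hvf ρ.1 v (-1 / τ) hT, hs_add hA]
  have key2 : ∀ y : Fin 20 → ℝ, HasSum (fun p => F p y)
      (c τ (fun i => (y i : ℂ)) * ee (-(dt μ (fun i => (y i : ℂ))))) := by
    intro y
    have := (e.hasSum_iff).2 (key y)
    refine this.congr_fun ?_
    intro p
    exact (hFe p y)
  have hFint : ∀ p, Integrable (F p) (volume.restrict (Set.Icc (0 : Fin 20 → ℝ) 1)) := by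
    intro p
    exact (((hs_int hA hτ μ p.1.1).comp_add_right _).const_mul _).integrableOn
  have hneg : ∀ (E : Type) [NormedAddCommGroup E] [NormedSpace ℝ E] (f : (Fin 20 → ℝ) → E),
      Integrable f → HasSum (fun v : Fin 20 → ℤ => ∫ y in Set.Icc (0 : Fin 20 → ℝ) 1,
        f (y + fun i => ((-v i : ℤ) : ℝ))) (∫ x, f x) := by
    intro E _ _ f hf
    exact ((Equiv.neg (Fin 20 → ℤ)).hasSum_iff).2 (unfold_sum hf)
  have hFsum : Summable fun p => ∫ y in Set.Icc (0 : Fin 20 → ℝ) 1, ‖F p y‖ := by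
    rw [summable_prod_of_nonneg (fun p => integral_nonneg fun y => norm_nonneg _)]
    refine ⟨fun ρ => ?_, Summable.of_finite⟩
    have := (hneg ℝ _ (hs_int hA hτ μ ρ.1).norm).summable.mul_left ‖vf A c ρ.1 (-1 / τ)‖
    refine this.congr ?_
    intro v
    rw [← integral_const_mul]
    refine integral_congr_ae (Filter.Eventually.of_forall fun y => ?_)
    simp only [F, norm_mul]
  have hS := hasSum_integral_of_summable_integral_norm hFint hFsum
  have hfc : ∫ y in Set.Icc (0 : Fin 20 → ℝ) 1, ∑' p, F p y = fc c μ τ := by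
    unfold fc
    refine integral_congr_ae (Filter.Eventually.of_forall fun y => ?_)
    exact (key2 y).tsum_eq
  rw [hfc] at hS
  have hfib : ∀ ρ : R, HasSum (fun v => ∫ y in Set.Icc (0 : Fin 20 → ℝ) 1, F (ρ, v) y)
      (vf A c ρ.1 (-1 / τ) * ∫ x, hs A τ μ ρ.1 x) := by
    intro ρ
    have := (hneg ℂ _ (hs_int hA hτ μ ρ.1)).mul_left (vf A c ρ.1 (-1 / τ))
    refine this.congr_fun ?_
    intro v
    rw [← integral_const_mul]
  have hfin := (hS.prod_fiberwise hfib).unique (hasSum_fintype _)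
  have hvff : vf A c μ τ = ee (-(τ * (bd A μ μ : ℂ) / 2)) * fc c μ τ := rfl
  rw [hvff, hfin, ← Finset.sum_coe_sort R, Finset.mul_sum, Finset.mul_sum]
  refine Finset.sum_congr rfl fun ρ _ => ?_
  rw [hs_val hA hτ]
  have : ee (-(τ * (bd A μ μ : ℂ) / 2)) * ee (τ * (bd A μ μ : ℂ) / 2) = 1 := by
    rw [← ee_add, neg_add_cancel]
    simp [ee]
  linear_combination (vf A c ρ.1 (-1 / τ) * ee (-(bd A μ ρ.1 : ℂ)) *
    (-(τ ^ 10) / (Real.sqrt (A.det : ℝ) : ℂ))) * this

end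

end Pool.Agent.Q98.RL.Th2
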